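import Mathlib
import Pool.Prelude.Def_F_6b510ad2
import Pool.Agent.Work.MP_18694c_nt.Bound

set_option autoImplicit false

namespace Pool.Agent.Results.MP_18694c_nt.KBound

/-- Uniform explicit upper bound for the least `k ≥ 2` with `gcd(k^n-1, 2^n-1) = 1`:
for every `n ≥ 3`, `K(n) ≤ exp(70 d(n) (log n)^2)`, with `d(n)` the number of divisors of `n`. -/
theorem result (n : ℕ) (hn : 3 ≤ n) :
    (N97cf5353.K n : ℝ) ≤ Real.exp (70 * (n.divisors.card : ℝ) * (Real.log n) ^ 2) :=
  Pool.Agent.Work.MP_18694c_nt.K_le n hn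

end Pool.Agent.Results.MP_18694c_nt.KBound
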